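import Pool.Agent.MP_0dc0f9_ag.Betti

open Pool.Agent.MP_0dc0f9_ag

theorem Pool.Agent.Results.MP_0dc0f9_ag.Counterexample.result
    (k : Type*) [Field k] [IsAlgClosed k] [CharZero k] :
    ∃ (d g n p : ℕ) (G : SimpleGraph (Fin d)) (ℓ : Fin d → Submodule k (Fin (n + 1) → k)),
      G.Connected ∧ (∃ f, IsPlaneDrawing G f) ∧ (∀ v, (G.neighborSet v).ncard ≤ 3) ∧
      (∀ H : G.Subgraph, H.Connected →
        2 * ((H.edgeSet.ncard : ℤ) - H.verts.ncard + 1) + 1 ≤ H.verts.ncard) ∧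
      (g : ℤ) = G.edgeSet.ncard - d + 1 ∧ d = n + g ∧ d = 2 * g + 1 + p ∧
      ¬ G.IsAcyclic ∧ G.girth ≤ p + 2 ∧
      IsGraphCurve G ℓ ∧
      G.copyCount (SimpleGraph.cycleGraph G.girth) <
        gradedBetti (MvPolynomial.vanishingIdeal k (⋃ v, (ℓ v : Set (Fin (n + 1) → k))))
          (G.girth - 2) G.girth :=
  ⟨6, 2, 4, 1, exG, exL k, exG_connected, ⟨_, exG_plane⟩, exG_degree, exG_sub,
    by rw [exG_edges]; norm_num, rfl, rfl, exG_not_acyclic, exG_girth.le, exL_graphCurve,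
    by rw [exG_girth]; exact lt_of_le_of_lt exG_copyCount two_le_betti⟩
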